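import Pool.Agent.W366.HT.Int3

/-!
# HT-INT: analytic interpolation of `log R_d` and `log S_d`
-/

set_option autoImplicit false

namespace Pool.Agent.W366.HT

open Filter Finset Topology Metric MeasureTheory
open scoped Real

/-! ### Geometry -/

lemma A_sub : ball (1 / 4 : ℂ) (1 / 100) ⊆ ball (1 / 8 : ℂ) (3 / 20) := by
  apply ball_subset_ball'
  rw [dist_eq_norm]
  norm_num

lemma A_sub' : ball (1 / 4 : ℂ) (1 / 100) ⊆ ball (1 / 4 : ℂ) (1 / 20) := ball_subset_ball (by norm_num)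

lemma norm_cast_inv {x : ℝ} (hx : 0 ≤ x) : ‖((x : ℝ) : ℂ)‖ = x := by
  rw [Complex.norm_real, Real.norm_eq_abs, abs_of_nonneg hx]

lemma shiftA {z : ℂ} (hz : z ∈ ball (1 / 4 : ℂ) (1 / 100)) {x : ℝ} (h0 : 0 ≤ x) (h1 : x ≤ 1 / 100) :
    z + x ∈ ball (1 / 8 : ℂ) (3 / 20) := by
  rw [mem_ball, dist_eq_norm] at hz ⊢
  have e : z + x - 1 / 8 = (z - 1 / 4) + ((x + 1 / 8 : ℝ) : ℂ) := by push_cast; ring
  rw [e]
  refine (norm_add_le _ _).trans_lt ?_
  rw [norm_cast_inv (by linarith)]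
  linarith

lemma shiftB {z : ℂ} (hz : z ∈ ball (1 / 4 : ℂ) (1 / 100)) {x : ℝ} (h0 : 0 ≤ x) (h1 : x ≤ 1 / 100) :
    z + x ∈ ball (1 / 4 : ℂ) (1 / 20) := by
  rw [mem_ball, dist_eq_norm] at hz ⊢
  have e : z + x - 1 / 4 = (z - 1 / 4) + ((x : ℝ) : ℂ) := by push_cast; ring
  rw [e]
  refine (norm_add_le _ _).trans_lt ?_
  rw [norm_cast_inv h0]
  linarith

lemma real_mem_D1 {x : ℝ} (h0 : 0 ≤ x) (h1 : x ≤ 27 / 100) : (x : ℂ) ∈ ball (1 / 8 : ℂ) (3 / 20) := by
  rw [mem_ball, dist_eq_norm]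
  have e : (x : ℂ) - 1 / 8 = ((x - 1 / 8 : ℝ) : ℂ) := by push_cast; ring
  rw [e, Complex.norm_real, Real.norm_eq_abs, abs_lt]
  constructor <;> linarith

lemma real_mem_A {x : ℝ} {r : ℝ} (h : |x - 1 / 4| < r) : (x : ℂ) ∈ ball (1 / 4 : ℂ) r := by
  rw [mem_ball, dist_eq_norm]
  have e : (x : ℂ) - 1 / 4 = ((x - 1 / 4 : ℝ) : ℂ) := by push_cast; ring
  rw [e, Complex.norm_real, Real.norm_eq_abs]
  exact h

lemma fA_diffψ {z : ℂ} (hz : z ∈ ball (1 / 8 : ℂ) (3 / 20)) :
    DifferentiableOn ℂ (fun ψ => fA ψ z) (ball (0 : ℂ) (1 / 100)) := by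
  unfold fA
  refine DifferentiableOn.clog ?_ (fun ψ hψ => ar_slit hψ hz)
  unfold ar
  fun_prop

open Classical in
/-- the first family -/
noncomputable def gA (N : ℕ) (ψ z : ℂ) : ℂ :=
  if z ∈ ball (1 / 4 : ℂ) (1 / 100) then fA ψ (z + (1 / (2 * N) : ℝ)) else 0

lemma gA_of_mem {N : ℕ} {ψ z : ℂ} (hz : z ∈ ball (1 / 4 : ℂ) (1 / 100)) :
    gA N ψ z = fA ψ (z + (1 / (2 * N) : ℝ)) := if_pos hz

lemma inv_le {N : ℕ} (hN : 100 ≤ N) : 0 ≤ (1 / (2 * N) : ℝ) ∧ (1 / (2 * N) : ℝ) ≤ 1 / 100 ∧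
    (0 : ℝ) ≤ 1 / N ∧ (1 / N : ℝ) ≤ 1 / 100 := by
  have h : (100 : ℝ) ≤ N := by exact_mod_cast hN
  refine ⟨by positivity, ?_, by positivity, ?_⟩
  · rw [div_le_div_iff₀ (by positivity) (by norm_num)]; linarith
  · rw [div_le_div_iff₀ (by positivity) (by norm_num)]; linarith

lemma gA_diffψ {N : ℕ} (hN : 100 ≤ N) (z : ℂ) :
    DifferentiableOn ℂ (fun ψ => gA N ψ z) (ball (0 : ℂ) (1 / 100)) := by
  by_cases hz : z ∈ ball (1 / 4 : ℂ) (1 / 100)
  · have e : (fun ψ => gA N ψ z) = fun ψ => fA ψ (z + (1 / (2 * N) : ℝ)) := by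
      funext ψ
      exact gA_of_mem hz
    rw [e]
    exact fA_diffψ (shiftA hz (inv_le hN).1 (inv_le hN).2.1)
  · have e : (fun ψ => gA N ψ z) = fun _ => 0 := by
      funext ψ
      exact if_neg hz
    rw [e]
    exact differentiableOn_const _

/-- the Newton polynomials -/
noncomputable def nw (N m j : ℕ) (z : ℂ) : ℂ :=
  (∏ i ∈ range (j + 1), (N * z - m - i)) / ((j + 1).factorial : ℂ)

lemma nw_diff (N m j : ℕ) : Differentiable ℂ (nw N m j) := by
  unfold nw
  refine Differentiable.div_const ?_ _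
  refine Differentiable.fun_finsetProd fun i _ => ?_
  fun_prop

/-- coefficients of the first family -/
noncomputable def cf (N m j : ℕ) (ψ : ℂ) : ℂ :=
  ∑ i ∈ range (j + 1), (-1 : ℂ) ^ (j - i) * (j.choose i : ℂ) * gA N ψ (((m + i : ℕ) : ℂ) / N)

lemma cf_diff {N : ℕ} (hN : 100 ≤ N) (m j : ℕ) :
    DifferentiableOn ℂ (cf N m j) (ball (0 : ℂ) (1 / 100)) := by
  unfold cf
  refine DifferentiableOn.fun_sum fun i _ => ?_
  exact (gA_diffψ hN _).const_mul _

/-- the factors of `R_d` -/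
lemma exp_fA {ψ : ℂ} (hψ : ψ ∈ ball (0 : ℂ) (1 / 100)) {N j : ℕ}
    (h1 : ((2 * j + 1) / (2 * N) : ℝ) ≤ 27 / 100) (hN : 0 < N) :
    Complex.exp (fA ψ (((2 * j + 1) / (2 * N) : ℝ) : ℂ)) =
      2 * Complex.cos ψ + 2 * (Real.cos (W711.HT.phi N j) : ℂ) := by
  have hN' : (N : ℝ) ≠ 0 := by exact_mod_cast hN.ne'
  have hz := real_mem_D1 (x := (2 * j + 1) / (2 * N)) (by positivity) h1
  unfold fA
  rw [Complex.exp_log (ar_ne hψ hz)]
  unfold ar
  have e : (2 * π * (((2 * j + 1) / (2 * N) : ℝ) : ℂ) : ℂ) = ((W711.HT.phi N j : ℝ) : ℂ) := by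
    have e' : 2 * π * ((2 * j + 1) / (2 * N)) = W711.HT.phi N j := by
      unfold W711.HT.phi
      field_simp
    rw [← e']
    push_cast
    ring
  rw [e, Complex.ofReal_cos]

/-- the factors of `S_d` -/
lemma exp_gB {N k : ℕ} (h1 : k + 1 < N) :
    Complex.exp ((gB ((k + 1) / N) : ℝ) : ℂ) = ((2 * Real.sin (π * (k + 1) / N) : ℝ) : ℂ) := by
  have hN' : (0 : ℝ) < N := by
    have : 0 < N := by omega
    exact_mod_cast this
  have e : π * (k + 1) / N = π * ((k + 1) / N) := by ring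
  have h2 : ((k : ℝ) + 1) / N < 1 := by
    rw [div_lt_one hN']
    exact_mod_cast h1
  have h3 : 0 < Real.sin (π * (((k : ℝ) + 1) / N)) := by
    apply Real.sin_pos_of_pos_of_lt_pi (by positivity)
    nlinarith [Real.pi_pos]
  unfold gB
  rw [← Complex.ofReal_exp, Real.exp_log (by positivity), e]

lemma diffOn_div {f : ℂ × ℂ → ℂ} {s : Set (ℂ × ℂ)} (hf : DifferentiableOn ℂ f s) (c : ℂ) :
    DifferentiableOn ℂ (fun p => f p / c) s := by
  have e : (fun p => f p / c) = fun p => f p * c⁻¹ := by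
    funext p
    rw [div_eq_mul_inv]
  rw [e]
  exact hf.mul_const _

theorem int_ : W711.HT.S_NEWT → W711.HT.S_INT := by
  intro hNewt
  obtain ⟨ρ, hρ0, hρR, hNw⟩ := hNewt (1 / 100) (by norm_num)
  obtain ⟨m, hm⟩ : ∃ m : ℕ → ℕ, m = fun N : ℕ => ⌊(1 / 4 - ρ) * (N : ℝ)⌋₊ := ⟨_, rfl⟩
  have hmt : Tendsto (fun N : ℕ => (m N : ℝ) / N) atTop (𝓝 (1 / 4 - ρ)) := by
    rw [hm]
    exact (tendsto_nat_floor_mul_div_atTop (R := ℝ) (a := 1 / 4 - ρ) (by linarith)).comp
      tendsto_natCast_atTop_atTop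
  have hm1 : ∀ᶠ N : ℕ in atTop, |(m N : ℝ) / N - (1 / 4 - ρ)| ≤ ρ / 4 := by
    have := Metric.tendsto_nhds.1 hmt (ρ / 4) (by linarith)
    filter_upwards [this] with N hN
    rw [Real.dist_eq] at hN
    exact hN.le
  have hm2 : ∀ᶠ N : ℕ in atTop, 1 / 4 - 1 / 100 < (m N : ℝ) / N :=
    hmt.eventually_const_lt (by linarith)
  have e4 : (((1 / 4 : ℝ)) : ℂ) = 1 / 4 := by norm_num
  -- the first family
  obtain ⟨cA, DA, hcA, hsA, hlA⟩ := hNw (1 / 4) {ψ : ℂ // ψ ∈ ball (0 : ℂ) (1 / 100)}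
    (fun N k z => gA N k.1 z) (fun k z => fA k.1 z) 12
    (by
      filter_upwards [eventually_ge_atTop 100] with N hN k
      rw [e4]
      have h1 : DifferentiableOn ℂ (fun z => fA k.1 (z + (1 / (2 * N) : ℝ)))
          (ball (1 / 4 : ℂ) (1 / 100)) := by
        refine (fA_diff k.2).comp (by fun_prop) ?_
        intro z hz
        exact shiftA hz (inv_le hN).1 (inv_le hN).2.1
      exact h1.congr fun z hz => gA_of_mem hz)
    (by
      intro k
      rw [e4]
      exact (fA_diff k.2).mono A_sub)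
    (by
      filter_upwards [eventually_ge_atTop 100] with N hN k z hz
      rw [e4] at hz
      rw [gA_of_mem hz]
      exact fA_norm k.2 (shiftA hz (inv_le hN).1 (inv_le hN).2.1))
    (by
      intro ε hε
      have hlim : Tendsto (fun N : ℕ => 32 * ((1 / 2) * (1 / (N : ℝ)))) atTop (𝓝 0) := by
        have := ((tendsto_one_div_atTop_nhds_zero_nat (𝕜 := ℝ)).const_mul (1 / 2)).const_mul 32
        simpa using this
      filter_upwards [eventually_ge_atTop 100, hlim.eventually_lt_const hε] with N hN hN2 k z hz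
      rw [e4] at hz
      rw [gA_of_mem hz]
      refine (fA_lip k.2 (A_sub hz) (shiftA hz (inv_le hN).1 (inv_le hN).2.1)).trans ?_
      rw [add_sub_cancel_left, norm_cast_inv (inv_le hN).1]
      refine le_trans (le_of_eq ?_) hN2.le
      ring)
    m hm1
  -- the second family
  obtain ⟨cB, DB, hcB, hsB, hlB⟩ := hNw (1 / 4) Unit
    (fun N _ z => fB (z + (1 / N : ℝ))) (fun _ z => fB z) 10
    (by
      filter_upwards [eventually_ge_atTop 100] with N hN k
      rw [e4]
      refine (fB_diff.mono B_sub).comp (by fun_prop) ?_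
      intro z hz
      exact shiftB hz (inv_le hN).2.2.1 (inv_le hN).2.2.2)
    (by
      intro k
      rw [e4]
      exact fB_diff.mono (A_sub'.trans B_sub))
    (by
      filter_upwards [eventually_ge_atTop 100] with N hN k z hz
      rw [e4] at hz
      exact fB_bound1 (shiftB hz (inv_le hN).2.2.1 (inv_le hN).2.2.2))
    (by
      intro ε hε
      have hlim : Tendsto (fun N : ℕ => 16 * (1 / (N : ℝ))) atTop (𝓝 0) := by
        have := (tendsto_one_div_atTop_nhds_zero_nat (𝕜 := ℝ)).const_mul 16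
        simpa using this
      filter_upwards [eventually_ge_atTop 100, hlim.eventually_lt_const hε] with N hN hN2 k z hz
      rw [e4] at hz
      refine (fB_lip (A_sub' hz) (shiftB hz (inv_le hN).2.2.1 (inv_le hN).2.2.2)).trans ?_
      rw [add_sub_cancel_left, norm_cast_inv (inv_le hN).2.2.1]
      exact hN2.le)
    m hm1
  have hψs : ball (0 : ℂ) (ρ / 2) ⊆ ball (0 : ℂ) (1 / 100) := ball_subset_ball (by linarith)
  refine ⟨ρ / 2, by linarith, by linarith,
    fun N p => (∑ j ∈ range (m N), fA p.2 (((2 * j + 1) / (2 * N) : ℝ) : ℂ)) / N +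
      (∑ j ∈ range (DA N), cf N (m N) j p.2 * nw N (m N) j p.1) / N,
    fun N z => (∑ k ∈ range (m N), ((gB ((k + 1) / N) : ℝ) : ℂ)) / N +
      (∑ j ∈ range (DB N), cB N j () * nw N (m N) j z) / N, ?_, ?_, ?_, ?_, ?_⟩
  · -- differentiability of `r`
    filter_upwards [eventually_ge_atTop 100, hm1] with N hN hmN
    have hN' : (0 : ℝ) < N := by
      have : 0 < N := by omega
      exact_mod_cast this
    have hs2 : Set.MapsTo Prod.snd (ball (1 / 4 : ℂ) (ρ / 2) ×ˢ ball (0 : ℂ) (ρ / 2))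
        (ball (0 : ℂ) (1 / 100)) := fun p hp => hψs hp.2
    refine DifferentiableOn.add (diffOn_div (DifferentiableOn.fun_sum
      fun j hj => ?_) _) (diffOn_div (DifferentiableOn.fun_sum fun j _ => ?_) _)
    · have hj' : (j : ℝ) + 1 ≤ m N := by exact_mod_cast mem_range.1 hj
      have h1 : ((2 * j + 1) / (2 * N) : ℝ) ≤ 27 / 100 := by
        have h2 : ((2 * j + 1) / (2 * N) : ℝ) ≤ (m N : ℝ) / N := by
          rw [div_le_div_iff₀ (by positivity) hN']
          nlinarith
        have h3 := (abs_le.1 hmN).2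
        linarith
      exact (fA_diffψ (real_mem_D1 (by positivity) h1)).comp differentiable_snd.differentiableOn hs2
    · exact ((cf_diff hN _ _).comp differentiable_snd.differentiableOn hs2).mul
        ((nw_diff _ _ _).comp differentiable_fst).differentiableOn
  · -- differentiability of `s`
    filter_upwards with N
    refine DifferentiableOn.add (differentiableOn_const _) (DifferentiableOn.div_const
      (DifferentiableOn.fun_sum fun j _ => ?_) _)
    exact ((nw_diff _ _ _).differentiableOn).const_mul _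
  · -- interpolation
    filter_upwards [eventually_ge_atTop 100, hm1, hm2, hsA, hsB] with N hN hmN hmN2 hsA hsB d hd
    have hN0 : 0 < N := by omega
    have hN' : (0 : ℝ) < N := by exact_mod_cast hN0
    have hNc : (N : ℂ) ≠ 0 := by exact_mod_cast hN0.ne'
    have hmd : m N ≤ d := by
      have h1 : (m N : ℝ) / N ≤ (d : ℝ) / N := by
        have h2 := (abs_le.1 hmN).2
        have h3 := (abs_lt.1 hd).1
        linarith
      rw [div_le_div_iff_of_pos_right hN'] at h1
      exact_mod_cast h1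
    have hdN : (d : ℝ) / N < 26 / 100 := by
      have h3 := (abs_lt.1 hd).2
      linarith
    have hjA : ∀ j ∈ Ico (m N) d, ((j : ℂ) / N) ∈ ball (1 / 4 : ℂ) (1 / 100) := by
      intro j hj
      rw [mem_Ico] at hj
      have e : ((j : ℂ) / N) = (((j : ℝ) / N : ℝ) : ℂ) := by push_cast; rfl
      rw [e]
      apply real_mem_A
      have h1 : (m N : ℝ) / N ≤ (j : ℝ) / N :=
        div_le_div_of_nonneg_right (by exact_mod_cast hj.1) hN'.le
      have h2 : (j : ℝ) / N ≤ (d : ℝ) / N :=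
        div_le_div_of_nonneg_right (by exact_mod_cast hj.2.le) hN'.le
      have h3 := (abs_lt.1 hd).2
      rw [abs_lt]
      constructor <;> linarith
    have hnw : ∀ j, nw N (m N) j ((d : ℂ) / N) =
        (∏ i ∈ range (j + 1), ((d : ℂ) - m N - i)) / ((j + 1).factorial : ℂ) := by
      intro j
      unfold nw
      rw [mul_div_cancel₀ _ hNc]
    constructor
    · intro ψ hψ
      have hψ' := hψs hψ
      have h1 := hsA ⟨ψ, hψ'⟩ d hd.le
      have e1 : ∑ j ∈ range (DA N), cf N (m N) j ψ * nw N (m N) j ((d : ℂ) / N) =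
          ∑ j ∈ Ico (m N) d, gA N ψ ((j : ℂ) / N) := by
        rw [h1]
        refine sum_congr rfl fun j _ => ?_
        rw [hnw, hcA]
        rfl
      have e2 : ∑ j ∈ Ico (m N) d, gA N ψ ((j : ℂ) / N) =
          ∑ j ∈ Ico (m N) d, fA ψ (((2 * j + 1) / (2 * N) : ℝ) : ℂ) := by
        refine sum_congr rfl fun j hj => ?_
        rw [gA_of_mem (hjA j hj)]
        congr 1
        push_cast
        field_simp
      have e3 : (N : ℂ) * ((∑ j ∈ range (m N), fA ψ (((2 * j + 1) / (2 * N) : ℝ) : ℂ)) / N +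
          (∑ j ∈ range (DA N), cf N (m N) j ψ * nw N (m N) j ((d : ℂ) / N)) / N) =
          ∑ j ∈ range d, fA ψ (((2 * j + 1) / (2 * N) : ℝ) : ℂ) := by
        rw [e1, e2, ← add_div, mul_div_cancel₀ _ hNc]
        exact sum_range_add_sum_Ico _ hmd
      show W711.HT.Rp N d ψ = Complex.exp ((N : ℂ) * ((∑ j ∈ range (m N),
        fA ψ (((2 * j + 1) / (2 * N) : ℝ) : ℂ)) / N +
          (∑ j ∈ range (DA N), cf N (m N) j ψ * nw N (m N) j ((d : ℂ) / N)) / N))
      rw [e3, Complex.exp_sum]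
      unfold W711.HT.Rp
      refine prod_congr rfl fun j hj => ?_
      rw [exp_fA hψ' _ hN0]
      have hj' : (j : ℝ) + 1 ≤ d := by exact_mod_cast mem_range.1 hj
      have h2 : ((2 * j + 1) / (2 * N) : ℝ) ≤ (d : ℝ) / N := by
        rw [div_le_div_iff₀ (by positivity) hN']
        nlinarith
      linarith
    · have h1 := hsB () d hd.le
      have e1 : ∑ j ∈ range (DB N), cB N j () * nw N (m N) j ((d : ℂ) / N) =
          ∑ j ∈ Ico (m N) d, fB ((j : ℂ) / N + (1 / N : ℝ)) := by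
        rw [h1]
        refine sum_congr rfl fun j _ => ?_
        rw [hnw]
      have e2 : ∑ j ∈ Ico (m N) d, fB ((j : ℂ) / N + (1 / N : ℝ)) =
          ∑ j ∈ Ico (m N) d, ((gB ((j + 1) / N) : ℝ) : ℂ) := by
        refine sum_congr rfl fun j hj => ?_
        rw [mem_Ico] at hj
        have hj' : (j : ℝ) + 1 ≤ d := by exact_mod_cast hj.2
        rw [← fB_real (by positivity)]
        · congr 1
          push_cast
          ring
        · have : ((j : ℝ) + 1) / N ≤ (d : ℝ) / N := div_le_div_of_nonneg_right hj' hN'.le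
          linarith
      have e3 : (N : ℂ) * ((∑ k ∈ range (m N), ((gB ((k + 1) / N) : ℝ) : ℂ)) / N +
          (∑ j ∈ range (DB N), cB N j () * nw N (m N) j ((d : ℂ) / N)) / N) =
          ∑ k ∈ range d, ((gB ((k + 1) / N) : ℝ) : ℂ) := by
        rw [e1, e2, ← add_div, mul_div_cancel₀ _ hNc]
        exact sum_range_add_sum_Ico _ hmd
      rw [e3, Complex.exp_sum]
      unfold W711.HT.Sd
      rw [Complex.ofReal_prod]
      refine prod_congr rfl fun k hk => ?_
      rw [exp_gB]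
      have hdN2 : (d : ℝ) < N := by
        rw [div_lt_iff₀ hN'] at hdN
        linarith
      have hdN3 : d < N := by exact_mod_cast hdN2
      have := mem_range.1 hk
      omega
  · -- the limit of `r`
    rw [Metric.tendstoUniformlyOn_iff]
    intro ε hε
    have hlim : Tendsto (fun N : ℕ => 8 * (1 / (N : ℝ))) atTop (𝓝 0) := by
      have := (tendsto_one_div_atTop_nhds_zero_nat (𝕜 := ℝ)).const_mul 8
      simpa using this
    filter_upwards [eventually_ge_atTop 100, hm1, hm2, hlA (ε / 3) (by linarith),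
      hlim.eventually_lt_const (by linarith : 0 < ε / 3)] with N hN hmN hmN2 hlA hN8 p hp
    have hN0 : 0 < N := by omega
    have hN' : (0 : ℝ) < N := by exact_mod_cast hN0
    have hψ := hψs hp.2
    have hδ : p.1 ∈ ball (1 / 4 : ℂ) (1 / 100) := ball_subset_ball (by linarith) hp.1
    have hmN3 : (m N : ℝ) / N ≤ 1 / 4 := by
      have := (abs_le.1 hmN).2
      linarith
    have hw : ((m N : ℂ) / N) ∈ ball (1 / 8 : ℂ) (3 / 20) := by
      have e : ((m N : ℂ) / N) = (((m N : ℝ) / N : ℝ) : ℂ) := by push_cast; rfl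
      rw [e]
      exact real_mem_D1 (by positivity) (by linarith)
    have h1 := sumA hψ hN0 hmN3
    have h2 := hlA ⟨p.2, hψ⟩ p.1 (by rw [e4]; exact hp.1)
    have h3 := rrF_split hψ (A_sub hδ) hw
    rw [dist_comm, dist_eq_norm]
    rw [h3]
    have e5 : ∑ j ∈ range (DA N), cf N (m N) j p.2 * nw N (m N) j p.1 =
        ∑ j ∈ range (DA N), cA N j ⟨p.2, hψ⟩ * ((∏ i ∈ range (j + 1), (N * p.1 - m N - i)) /
          ((j + 1).factorial : ℂ)) := by
      refine sum_congr rfl fun j _ => ?_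
      rw [hcA]
      rfl
    rw [e5]
    refine lt_of_le_of_lt (le_trans (le_of_eq ?_) ((norm_add_le _ _).trans (add_le_add h1 h2))) ?_
    · congr 1
      ring
    · have : (8 : ℝ) / N = 8 * (1 / N) := by ring
      linarith
  · -- the limit of `s`
    rw [Metric.tendstoUniformlyOn_iff]
    intro ε hε
    filter_upwards [eventually_ge_atTop 100, hm1, hm2, hlB (ε / 3) (by linarith),
      sumB (by linarith : 0 < ε / 3)] with N hN hmN hmN2 hlB hsum z hz
    have hN0 : 0 < N := by omega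
    have hN' : (0 : ℝ) < N := by exact_mod_cast hN0
    have hδ : z ∈ ball (1 / 4 : ℂ) (1 / 100) := ball_subset_ball (by linarith) hz
    have hmN3 : (m N : ℝ) / N ≤ 1 / 4 := by
      have := (abs_le.1 hmN).2
      linarith
    have hm0 : 0 < m N := by
      rcases Nat.eq_zero_or_pos (m N) with h | h
      · rw [h] at hmN2
        norm_num at hmN2
      · exact h
    have hw : ((m N : ℂ) / N) ∈ ball (1 / 4 : ℂ) (1 / 20) := by
      have e : ((m N : ℂ) / N) = (((m N : ℝ) / N : ℝ) : ℂ) := by push_cast; rfl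
      rw [e]
      apply real_mem_A
      rw [abs_lt]
      constructor <;> linarith
    have h1 := hsum (m N) hm0 (by linarith)
    have h2 := hlB () z (by rw [e4]; exact hz)
    have h3 := ssF_split (A_sub' hδ) hw
    rw [dist_comm, dist_eq_norm]
    rw [h3]
    refine lt_of_le_of_lt (le_trans (le_of_eq ?_) ((norm_add_le _ _).trans (add_le_add h1 h2))) ?_
    · congr 1
      unfold nw
      ring
    · linarith

end Pool.Agent.W366.HT
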