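import Pool.Agent.W711.HT.Stm

/-!
# The arguments of the logarithms, and integrals over segments
-/

set_option autoImplicit false

namespace Pool.Agent.W366.HT

open Filter Finset Topology Metric MeasureTheory
open scoped Real

/-! ### Trigonometric bounds -/

lemma cos_re' (z : ℂ) : (Complex.cos z).re = Real.cos z.re * Real.cosh z.im := by
  rw [Complex.cos_eq, ← Complex.ofReal_cos, ← Complex.ofReal_cosh, ← Complex.ofReal_sin,
    ← Complex.ofReal_sinh]
  simp only [Complex.sub_re, Complex.mul_re, Complex.ofReal_re, Complex.ofReal_im, Complex.mul_im,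
    Complex.I_re, Complex.I_im]
  ring

lemma sin_re' (z : ℂ) : (Complex.sin z).re = Real.sin z.re * Real.cosh z.im := by
  rw [Complex.sin_eq, ← Complex.ofReal_cos, ← Complex.ofReal_cosh, ← Complex.ofReal_sin,
    ← Complex.ofReal_sinh]
  simp only [Complex.add_re, Complex.mul_re, Complex.ofReal_re, Complex.ofReal_im, Complex.mul_im,
    Complex.I_re, Complex.I_im]
  ring

lemma norm_cos_le (z : ℂ) : ‖Complex.cos z‖ ≤ Real.cosh z.im := by
  have h1 : Complex.cos z = (Complex.exp (z * Complex.I) + Complex.exp (-z * Complex.I)) / 2 := rfl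
  rw [h1, norm_div, Real.cosh_eq]
  have h2 : ‖Complex.exp (z * Complex.I)‖ = Real.exp (-z.im) := by
    rw [Complex.norm_exp]; simp
  have h3 : ‖Complex.exp (-z * Complex.I)‖ = Real.exp z.im := by
    rw [Complex.norm_exp]; simp
  have h4 := norm_add_le (Complex.exp (z * Complex.I)) (Complex.exp (-z * Complex.I))
  rw [h2, h3] at h4
  have h5 : ‖(2:ℂ)‖ = 2 := by simp
  rw [h5]
  linarith

lemma norm_sin_le (z : ℂ) : ‖Complex.sin z‖ ≤ Real.cosh z.im := by
  have h1 : Complex.sin z = (Complex.exp (-z * Complex.I) - Complex.exp (z * Complex.I)) *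
    Complex.I / 2 := rfl
  rw [h1, norm_div, Real.cosh_eq, norm_mul, Complex.norm_I, mul_one]
  have h2 : ‖Complex.exp (z * Complex.I)‖ = Real.exp (-z.im) := by
    rw [Complex.norm_exp]; simp
  have h3 : ‖Complex.exp (-z * Complex.I)‖ = Real.exp z.im := by
    rw [Complex.norm_exp]; simp
  have h4 := norm_sub_le (Complex.exp (-z * Complex.I)) (Complex.exp (z * Complex.I))
  rw [h2, h3] at h4
  have h5 : ‖(2:ℂ)‖ = 2 := by simp
  rw [h5]
  linarith

lemma cosh_le_two {y : ℝ} (hy : |y| ≤ 1) : Real.cosh y ≤ 2 := by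
  have h1 : Real.cosh y ≤ Real.cosh 1 := by
    rw [Real.cosh_le_cosh, abs_one]; exact hy
  have h2 := Real.cosh_le_exp_half_sq 1
  have h3 : Real.exp (1 ^ 2 / 2) ≤ 2 := by
    have h4 : Real.exp (1 ^ 2 / 2) ^ 2 = Real.exp 1 := by
      rw [← Real.exp_nat_mul]; norm_num
    have h5 := Real.exp_one_lt_d9
    have h6 := Real.exp_pos (1 ^ 2 / 2)
    nlinarith
  linarith

/-- the disc containing `[0, 1/4]` -/
lemma mem_D1 {z : ℂ} (hz : z ∈ ball (1 / 8 : ℂ) (3 / 20)) :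
    -(1 / 40) < z.re ∧ z.re < 11 / 40 ∧ |z.im| < 3 / 20 := by
  rw [mem_ball, dist_eq_norm] at hz
  have h1 := (Complex.abs_re_le_norm (z - 1 / 8)).trans_lt hz
  have h2 := (Complex.abs_im_le_norm (z - 1 / 8)).trans_lt hz
  have e1 : (z - 1 / 8).re = z.re - 1 / 8 := by
    rw [Complex.sub_re]; norm_num
  have e2 : (z - 1 / 8).im = z.im := by
    rw [Complex.sub_im]; norm_num
  rw [e1] at h1
  rw [e2] at h2
  rw [abs_lt] at h1
  exact ⟨by linarith [h1.1], by linarith [h1.2], h2⟩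

/-- argument of the logarithm -/
noncomputable def ar (ψ z : ℂ) : ℂ := 2 * Complex.cos ψ + 2 * Complex.cos (2 * π * z)

lemma two_pi_re (z : ℂ) : (2 * π * z : ℂ).re = 2 * π * z.re ∧ (2 * π * z : ℂ).im = 2 * π * z.im := by
  constructor <;> simp

lemma ar_re {ψ z : ℂ} (hψ : ψ ∈ ball (0 : ℂ) (1 / 100)) (hz : z ∈ ball (1 / 8 : ℂ) (3 / 20)) :
    1 ≤ (ar ψ z).re := by
  obtain ⟨h1, h2, h3⟩ := mem_D1 hz
  have hpi := Real.pi_gt_three
  have hpi' := Real.pi_lt_d2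
  rw [mem_ball_zero_iff] at hψ
  have e : (ar ψ z).re = 2 * (Real.cos ψ.re * Real.cosh ψ.im) +
      2 * (Real.cos (2 * π * z.re) * Real.cosh (2 * π * z.im)) := by
    unfold ar
    rw [Complex.add_re]
    have e1 : (2 * Complex.cos ψ).re = 2 * (Complex.cos ψ).re := by simp
    have e2 : (2 * Complex.cos (2 * π * z)).re = 2 * (Complex.cos (2 * π * z)).re := by
      rw [Complex.mul_re]; simp
    rw [e1, e2, cos_re', cos_re', (two_pi_re z).1, (two_pi_re z).2]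
  rw [e]
  have a1 : |ψ.re| < 1 / 100 := (Complex.abs_re_le_norm ψ).trans_lt hψ
  have a2 : 1 - ψ.re ^ 2 / 2 ≤ Real.cos ψ.re := Real.one_sub_sq_div_two_le_cos
  have a3 : ψ.re ^ 2 ≤ (1 / 100) ^ 2 := by
    rw [← sq_abs]
    exact pow_le_pow_left₀ (abs_nonneg _) a1.le 2
  have a4 := Real.one_le_cosh ψ.im
  have a5 : (9 : ℝ) / 10 ≤ Real.cos ψ.re * Real.cosh ψ.im := by nlinarith
  have b1 : |2 * π * z.im| ≤ 1 := by
    rw [abs_mul, abs_of_pos (by positivity)]
    nlinarith [abs_nonneg z.im]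
  have b2 := cosh_le_two b1
  have b3 := Real.one_le_cosh (2 * π * z.im)
  have b4 : -(1 / 6 : ℝ) ≤ Real.cos (2 * π * z.re) := by
    rcases le_total z.re (1 / 4) with h | h
    · have : 0 ≤ Real.cos (2 * π * z.re) := by
        apply Real.cos_nonneg_of_mem_Icc
        constructor <;> nlinarith
      linarith
    · have e3 : Real.cos (2 * π * z.re) = - Real.sin (2 * π * (z.re - 1 / 4)) := by
        have : 2 * π * (z.re - 1 / 4) = 2 * π * z.re - π / 2 := by ring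
        rw [this, Real.sin_sub_pi_div_two, neg_neg]
      rw [e3]
      have h4 : Real.sin (2 * π * (z.re - 1 / 4)) ≤ 2 * π * (z.re - 1 / 4) :=
        Real.sin_le (by nlinarith)
      nlinarith
  nlinarith

lemma ar_norm {ψ z : ℂ} (hψ : ψ ∈ ball (0 : ℂ) (1 / 100)) (hz : z ∈ ball (1 / 8 : ℂ) (3 / 20)) :
    ‖ar ψ z‖ ≤ 8 := by
  obtain ⟨h1, h2, h3⟩ := mem_D1 hz
  have hpi := Real.pi_gt_three
  have hpi' := Real.pi_lt_d2
  rw [mem_ball_zero_iff] at hψ
  have b1 : |2 * π * z.im| ≤ 1 := by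
    rw [abs_mul, abs_of_pos (by positivity)]
    nlinarith [abs_nonneg z.im]
  have b2 := cosh_le_two b1
  have a1 : |ψ.im| ≤ 1 := ((Complex.abs_im_le_norm ψ).trans_lt hψ).le.trans (by norm_num)
  have a2 := cosh_le_two a1
  have c1 := norm_cos_le ψ
  have c2 := norm_cos_le (2 * π * z)
  rw [(two_pi_re z).2] at c2
  have d1 := norm_add_le (2 * Complex.cos ψ) (2 * Complex.cos (2 * π * z))
  rw [norm_mul, norm_mul, Complex.norm_two] at d1
  unfold ar
  linarith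

lemma ar_slit {ψ z : ℂ} (hψ : ψ ∈ ball (0 : ℂ) (1 / 100)) (hz : z ∈ ball (1 / 8 : ℂ) (3 / 20)) :
    ar ψ z ∈ Complex.slitPlane := by
  rw [Complex.mem_slitPlane_iff]
  left
  linarith [ar_re hψ hz]

lemma ar_ne {ψ z : ℂ} (hψ : ψ ∈ ball (0 : ℂ) (1 / 100)) (hz : z ∈ ball (1 / 8 : ℂ) (3 / 20)) :
    ar ψ z ≠ 0 := Complex.slitPlane_ne_zero (ar_slit hψ hz)

lemma norm_log_le' {w : ℂ} {c : ℝ} (h1 : 1 ≤ w.re) (h2 : ‖w‖ ≤ c) : ‖Complex.log w‖ ≤ c + 4 := by
  have h3 : 1 ≤ ‖w‖ := h1.trans (Complex.re_le_norm w)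
  have h4 : Complex.log w = (Real.log ‖w‖ : ℂ) + Complex.arg w * Complex.I := rfl
  rw [h4]
  have h5 := norm_add_le (Real.log ‖w‖ : ℂ) (Complex.arg w * Complex.I)
  rw [norm_mul, Complex.norm_I, mul_one, Complex.norm_real, Complex.norm_real, Real.norm_eq_abs,
    Real.norm_eq_abs, abs_of_nonneg (Real.log_nonneg h3)] at h5
  have h6 := Complex.abs_arg_le_pi w
  have h7 := Real.log_le_self (by linarith : 0 ≤ ‖w‖)
  have h8 := Real.pi_lt_d2
  linarith

/-- the logarithm -/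
noncomputable def fA (ψ z : ℂ) : ℂ := Complex.log (ar ψ z)

lemma fA_norm {ψ z : ℂ} (hψ : ψ ∈ ball (0 : ℂ) (1 / 100)) (hz : z ∈ ball (1 / 8 : ℂ) (3 / 20)) :
    ‖fA ψ z‖ ≤ 12 := by
  have := norm_log_le' (ar_re hψ hz) (ar_norm hψ hz)
  unfold fA
  linarith

lemma fA_deriv {ψ z : ℂ} (hψ : ψ ∈ ball (0 : ℂ) (1 / 100)) (hz : z ∈ ball (1 / 8 : ℂ) (3 / 20)) :
    HasDerivAt (fA ψ) (-(4 * π * Complex.sin (2 * π * z)) / ar ψ z) z := by
  unfold fA
  have h1 : HasDerivAt (ar ψ) (-(4 * π * Complex.sin (2 * π * z))) z := by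
    unfold ar
    have h2 : HasDerivAt (fun z : ℂ => 2 * π * z) (2 * π : ℂ) z := by
      simpa using (hasDerivAt_id z).const_mul (2 * π : ℂ)
    have h3 := ((h2.ccos).const_mul (2 : ℂ)).const_add (2 * Complex.cos ψ)
    refine h3.congr_deriv ?_
    ring
  exact h1.clog (ar_slit hψ hz)

lemma fA_diff {ψ : ℂ} (hψ : ψ ∈ ball (0 : ℂ) (1 / 100)) :
    DifferentiableOn ℂ (fA ψ) (ball (1 / 8 : ℂ) (3 / 20)) := fun _ hz =>
  (fA_deriv hψ hz).differentiableAt.differentiableWithinAt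

lemma fA_lip {ψ z z' : ℂ} (hψ : ψ ∈ ball (0 : ℂ) (1 / 100)) (hz : z ∈ ball (1 / 8 : ℂ) (3 / 20))
    (hz' : z' ∈ ball (1 / 8 : ℂ) (3 / 20)) : ‖fA ψ z' - fA ψ z‖ ≤ 32 * ‖z' - z‖ := by
  refine Convex.norm_image_sub_le_of_norm_hasDerivWithin_le
    (f' := fun z => -(4 * π * Complex.sin (2 * π * z)) / ar ψ z)
    (fun x hx => (fA_deriv hψ hx).hasDerivWithinAt) (fun x hx => ?_) (convex_ball _ _) hz hz'
  obtain ⟨h1, h2, h3⟩ := mem_D1 hx
  have hpi := Real.pi_gt_three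
  have hpi' := Real.pi_lt_d2
  have b1 : |2 * π * x.im| ≤ 1 := by
    rw [abs_mul, abs_of_pos (by positivity)]
    nlinarith [abs_nonneg x.im]
  have b2 := cosh_le_two b1
  have c2 := norm_sin_le (2 * π * x)
  rw [(two_pi_re x).2] at c2
  have h4 : 1 ≤ ‖ar ψ x‖ := (ar_re hψ hx).trans (Complex.re_le_norm _)
  rw [norm_div, norm_neg, norm_mul, norm_mul, Complex.norm_real, Real.norm_eq_abs,
    abs_of_pos Real.pi_pos, div_le_iff₀ (by linarith)]
  have e4 : ‖(4:ℂ)‖ = 4 := by simp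
  rw [e4]
  have h5 : 4 * π * ‖Complex.sin (2 * π * x)‖ ≤ 32 := by
    have : ‖Complex.sin (2 * π * x)‖ ≤ 2 := c2.trans b2
    have h0 := norm_nonneg (Complex.sin (2 * π * x))
    nlinarith
  linarith

/-! ### Integrals over segments -/

lemma seg_int {f F : ℂ → ℂ} {U : Set ℂ} (hU : Convex ℝ U) (hF : ∀ z ∈ U, HasDerivAt F (f z) z)
    (hc : ContinuousOn f U) {a b : ℂ} (ha : a ∈ U) (hb : b ∈ U) :
    (b - a) * ∫ t in (0:ℝ)..1, f (a + (b - a) * t) = F b - F a := by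
  have hmem : ∀ t ∈ Set.uIcc (0:ℝ) 1, a + (b - a) * t ∈ U := by
    intro t ht
    rw [Set.uIcc_of_le zero_le_one] at ht
    have := hU ha hb (sub_nonneg.2 ht.2) ht.1 (by ring)
    rw [Complex.real_smul, Complex.real_smul] at this
    have e : a + (b - a) * t = ((1 - t : ℝ) : ℂ) * a + (t : ℂ) * b := by push_cast; ring
    rw [e]; exact this
  have hder : ∀ t ∈ Set.uIcc (0:ℝ) 1, HasDerivAt (fun t : ℝ => F (a + (b - a) * t))
      ((b - a) * f (a + (b - a) * t)) t := by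
    intro t ht
    have h1 : HasDerivAt (fun t : ℝ => a + (b - a) * (t : ℂ)) (b - a) t := by
      have h2 : HasDerivAt (fun t : ℝ => (t : ℂ)) 1 t := Complex.ofRealCLM.hasDerivAt
      simpa using (h2.const_mul (b - a)).const_add a
    have h3 := (hF _ (hmem t ht)).comp t h1
    refine h3.congr_deriv ?_
    ring
  have hcont : ContinuousOn (fun t : ℝ => (b - a) * f (a + (b - a) * t)) (Set.uIcc (0:ℝ) 1) := by
    refine continuousOn_const.mul (hc.comp ?_ hmem)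
    fun_prop
  rw [← intervalIntegral.integral_const_mul,
    intervalIntegral.integral_eq_sub_of_hasDerivAt hder hcont.intervalIntegrable]
  simp

/-- the limit of `log R_d / N`, split at `w` -/
lemma rrF_split {ψ δ w : ℂ} (hψ : ψ ∈ ball (0 : ℂ) (1 / 100)) (hδ : δ ∈ ball (1 / 8 : ℂ) (3 / 20))
    (hw : w ∈ ball (1 / 8 : ℂ) (3 / 20)) :
    W711.HT.rrF δ ψ = w * (∫ t in (0:ℝ)..1, fA ψ (w * t)) +
      (δ - w) * ∫ t in (0:ℝ)..1, fA ψ (w + (δ - w) * t) := by
  obtain ⟨F, hF⟩ := (fA_diff hψ).isExactOn_ball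
  have hc := (fA_diff hψ).continuousOn
  have h0 : (0 : ℂ) ∈ ball (1 / 8 : ℂ) (3 / 20) := by
    rw [mem_ball, dist_eq_norm]; norm_num
  have h1 := seg_int (convex_ball _ _) hF hc h0 hδ
  have h2 := seg_int (convex_ball _ _) hF hc h0 hw
  have h3 := seg_int (convex_ball _ _) hF hc hw hδ
  simp only [zero_add, sub_zero] at h1 h2
  rw [h2, h3]
  unfold W711.HT.rrF
  have e : ∀ t : ℝ, Complex.log (2 * Complex.cos ψ + 2 * Complex.cos (2 * π * δ * t)) =
      fA ψ (δ * t) := by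
    intro t
    unfold fA ar
    rw [mul_assoc (2 * (π : ℂ)) δ]
  simp only [e]
  rw [h1]
  ring

end Pool.Agent.W366.HT
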