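import Pool.Agent.W366.HT.Int1

/-!
# The function `ssF` near `1 / 4`
-/

set_option autoImplicit false

namespace Pool.Agent.W366.HT

open Filter Finset Topology Metric MeasureTheory
open scoped Real

/-- the second logarithm -/
noncomputable def fB (z : ℂ) : ℂ := Complex.log (2 * Complex.sin (π * z))

lemma mem_D2 {z : ℂ} (hz : z ∈ ball (1 / 4 : ℂ) (1 / 4)) : 0 < z.re ∧ z.re < 1 / 2 := by
  rw [mem_ball, dist_eq_norm] at hz
  have h1 := (Complex.abs_re_le_norm (z - 1 / 4)).trans_lt hz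
  have e1 : (z - 1 / 4).re = z.re - 1 / 4 := by
    rw [Complex.sub_re]; norm_num
  rw [e1, abs_lt] at h1
  exact ⟨by linarith [h1.1], by linarith [h1.2]⟩

lemma mem_B {z : ℂ} (hz : z ∈ ball (1 / 4 : ℂ) (1 / 20)) :
    1 / 5 < z.re ∧ z.re < 3 / 10 ∧ |z.im| < 1 / 20 := by
  rw [mem_ball, dist_eq_norm] at hz
  have h1 := (Complex.abs_re_le_norm (z - 1 / 4)).trans_lt hz
  have h2 := (Complex.abs_im_le_norm (z - 1 / 4)).trans_lt hz
  have e1 : (z - 1 / 4).re = z.re - 1 / 4 := by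
    rw [Complex.sub_re]; norm_num
  have e2 : (z - 1 / 4).im = z.im := by
    rw [Complex.sub_im]; norm_num
  rw [e1, abs_lt] at h1
  rw [e2] at h2
  exact ⟨by linarith [h1.1], by linarith [h1.2], h2⟩

lemma B_star {z : ℂ} (hz : z ∈ ball (1 / 4 : ℂ) (1 / 20)) {t : ℝ} (ht : 0 < t) (ht1 : t ≤ 1) :
    z * t ∈ ball (1 / 4 : ℂ) (1 / 4) := by
  obtain ⟨h1, h2, h3⟩ := mem_B hz
  rw [mem_ball, dist_eq_norm]
  refine lt_of_pow_lt_pow_left₀ 2 (by norm_num) ?_
  rw [← Complex.normSq_eq_norm_sq, Complex.normSq_apply]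
  have e1 : (z * t - 1 / 4).re = z.re * t - 1 / 4 := by
    rw [Complex.sub_re, Complex.re_mul_ofReal]; norm_num
  have e2 : (z * t - 1 / 4).im = z.im * t := by
    rw [Complex.sub_im, Complex.im_mul_ofReal]; norm_num
  rw [e1, e2]
  have h4 : z.im ^ 2 ≤ (1 / 20) ^ 2 := by
    rw [← sq_abs]
    exact pow_le_pow_left₀ (abs_nonneg _) h3.le 2
  have h5 : t * (z.re ^ 2 + z.im ^ 2) < z.re / 2 := by
    have : z.re ^ 2 + z.im ^ 2 < z.re / 2 := by nlinarith
    have h6 : t * (z.re ^ 2 + z.im ^ 2) ≤ 1 * (z.re ^ 2 + z.im ^ 2) :=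
      mul_le_mul_of_nonneg_right ht1 (by positivity)
    linarith
  nlinarith

lemma sin_re_ge {z : ℂ} (h0 : 0 ≤ z.re) (h1 : z.re ≤ 1 / 2) :
    4 * z.re ≤ (2 * Complex.sin (π * z)).re := by
  have e : (2 * Complex.sin (π * z)).re = 2 * (Real.sin (π * z.re) * Real.cosh (π * z.im)) := by
    have e1 : (2 * Complex.sin (π * z)).re = 2 * (Complex.sin (π * z)).re := by simp
    rw [e1, sin_re', Complex.re_ofReal_mul, Complex.im_ofReal_mul]
  rw [e]
  have h2 := Real.mul_le_sin (x := π * z.re) (by positivity) (by nlinarith [Real.pi_pos])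
  have h3 : 2 / π * (π * z.re) = 2 * z.re := by field_simp
  rw [h3] at h2
  have h4 := Real.one_le_cosh (π * z.im)
  nlinarith

lemma fB_slit {z : ℂ} (hz : z ∈ ball (1 / 4 : ℂ) (1 / 4)) :
    2 * Complex.sin (π * z) ∈ Complex.slitPlane := by
  obtain ⟨h1, h2⟩ := mem_D2 hz
  rw [Complex.mem_slitPlane_iff]
  left
  linarith [sin_re_ge h1.le h2.le]

lemma fB_deriv {z : ℂ} (hz : z ∈ ball (1 / 4 : ℂ) (1 / 4)) :
    HasDerivAt fB (2 * π * Complex.cos (π * z) / (2 * Complex.sin (π * z))) z := by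
  unfold fB
  have h2 : HasDerivAt (fun z : ℂ => π * z) (π : ℂ) z := by
    simpa using (hasDerivAt_id z).const_mul (π : ℂ)
  have h3 := (h2.csin).const_mul (2 : ℂ)
  refine (h3.clog (fB_slit hz)).congr_deriv ?_
  ring

lemma fB_diff : DifferentiableOn ℂ fB (ball (1 / 4 : ℂ) (1 / 4)) := fun _ hz =>
  (fB_deriv hz).differentiableAt.differentiableWithinAt

lemma B_sub : ball (1 / 4 : ℂ) (1 / 20) ⊆ ball (1 / 4 : ℂ) (1 / 4) := ball_subset_ball (by norm_num)

lemma fB_bound {z : ℂ} (hz : z ∈ ball (1 / 4 : ℂ) (1 / 20)) {t : ℝ} (ht : 0 < t) (ht1 : t ≤ 1) :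
    ‖fB (z * t)‖ ≤ 10 + |Real.log t| := by
  obtain ⟨h1, h2, h3⟩ := mem_B hz
  obtain ⟨d1, d2⟩ := mem_D2 (B_star hz ht ht1)
  have g1 := sin_re_ge d1.le d2.le
  rw [Complex.re_mul_ofReal] at g1
  have g2 : t * (4 / 5) ≤ ‖2 * Complex.sin (π * (z * t))‖ := by
    refine le_trans ?_ (Complex.re_le_norm _)
    nlinarith
  have g3 : ‖2 * Complex.sin (π * (z * t))‖ ≤ 4 := by
    rw [norm_mul, Complex.norm_two]
    have g4 := norm_sin_le (π * (z * t))
    rw [Complex.im_ofReal_mul, Complex.im_mul_ofReal] at g4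
    have g5 : |π * (z.im * t)| ≤ 1 := by
      rw [abs_mul, abs_of_pos Real.pi_pos, abs_mul, abs_of_pos ht]
      have : |z.im| * t ≤ 1 / 20 * 1 := mul_le_mul h3.le ht1 ht.le (by norm_num)
      nlinarith [Real.pi_lt_d2, Real.pi_pos]
    linarith [cosh_le_two g5]
  unfold fB
  obtain ⟨q, hq⟩ : ∃ q, q = 2 * Complex.sin (π * (z * t)) := ⟨_, rfl⟩
  rw [← hq] at g2 g3 ⊢
  have hq0 : 0 < ‖q‖ := lt_of_lt_of_le (by positivity) g2
  have h4 : Complex.log q = (Real.log ‖q‖ : ℂ) + Complex.arg q * Complex.I := rfl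
  rw [h4]
  have h5 := norm_add_le (Real.log ‖q‖ : ℂ) (Complex.arg q * Complex.I)
  rw [norm_mul, Complex.norm_I, mul_one, Complex.norm_real, Complex.norm_real, Real.norm_eq_abs,
    Real.norm_eq_abs] at h5
  have h6 := Complex.abs_arg_le_pi q
  have h8 := Real.pi_lt_d2
  have h9 : |Real.log ‖q‖| ≤ 3 + |Real.log t| := by
    rw [abs_le]
    constructor
    · have k1 := Real.log_le_log (by positivity) g2
      rw [Real.log_mul ht.ne' (by norm_num)] at k1
      have k2 := Real.one_sub_inv_le_log_of_pos (by norm_num : (0:ℝ) < 4 / 5)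
      norm_num at k2
      have k3 := neg_abs_le (Real.log t)
      linarith
    · have k1 := Real.log_le_log hq0 g3
      have k2 := Real.log_le_sub_one_of_pos (by norm_num : (0:ℝ) < 4)
      have k3 := abs_nonneg (Real.log t)
      linarith
  linarith

lemma fB_bound1 {z : ℂ} (hz : z ∈ ball (1 / 4 : ℂ) (1 / 20)) : ‖fB z‖ ≤ 10 := by
  have := fB_bound hz one_pos le_rfl
  simpa using this

lemma fB_lip {z z' : ℂ} (hz : z ∈ ball (1 / 4 : ℂ) (1 / 20))
    (hz' : z' ∈ ball (1 / 4 : ℂ) (1 / 20)) : ‖fB z' - fB z‖ ≤ 16 * ‖z' - z‖ := by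
  refine Convex.norm_image_sub_le_of_norm_hasDerivWithin_le
    (f' := fun z => 2 * π * Complex.cos (π * z) / (2 * Complex.sin (π * z)))
    (fun x hx => (fB_deriv (B_sub hx)).hasDerivWithinAt) (fun x hx => ?_) (convex_ball _ _) hz hz'
  obtain ⟨h1, h2, h3⟩ := mem_B hx
  have h4 : 4 / 5 ≤ ‖2 * Complex.sin (π * x)‖ := by
    refine le_trans ?_ (Complex.re_le_norm _)
    linarith [sin_re_ge (z := x) (by linarith) (by linarith)]
  rw [norm_div, norm_mul, norm_mul, Complex.norm_two, Complex.norm_real, Real.norm_eq_abs,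
    abs_of_pos Real.pi_pos, div_le_iff₀ (by linarith)]
  have g4 := norm_cos_le (π * x)
  rw [Complex.im_ofReal_mul] at g4
  have g5 : |π * x.im| ≤ 1 / 5 := by
    rw [abs_mul, abs_of_pos Real.pi_pos]
    nlinarith [Real.pi_lt_d2, Real.pi_pos]
  have g6 : Real.cosh (π * x.im) ≤ 2 := cosh_le_two (by linarith)
  have hpi := Real.pi_pos
  have hpi' := Real.pi_lt_d2
  have h0 := norm_nonneg (Complex.cos (π * x))
  nlinarith

lemma fB_int {z : ℂ} (hz : z ∈ ball (1 / 4 : ℂ) (1 / 20)) :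
    IntervalIntegrable (fun t : ℝ => fB (z * t)) volume 0 1 := by
  have hg : IntervalIntegrable (fun t : ℝ => 10 + |Real.log t|) volume 0 1 :=
    intervalIntegrable_const.add intervalIntegral.intervalIntegrable_log'.abs
  refine hg.mono_fun' ?_ ?_
  · rw [Set.uIoc_of_le zero_le_one]
    refine ContinuousOn.aestronglyMeasurable ?_ measurableSet_Ioc
    refine fB_diff.continuousOn.comp (by fun_prop) ?_
    intro t ht
    exact B_star hz ht.1 ht.2
  · rw [Set.uIoc_of_le zero_le_one]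
    refine (ae_restrict_iff' measurableSet_Ioc).2 (ae_of_all _ fun t ht => ?_)
    exact fB_bound hz ht.1 ht.2

/-- the limit of `log S_d / N`, split at `w` -/
lemma ssF_split {δ w : ℂ} (hδ : δ ∈ ball (1 / 4 : ℂ) (1 / 20))
    (hw : w ∈ ball (1 / 4 : ℂ) (1 / 20)) :
    W711.HT.ssF δ = w * (∫ t in (0:ℝ)..1, fB (w * t)) +
      (δ - w) * ∫ t in (0:ℝ)..1, fB (w + (δ - w) * t) := by
  obtain ⟨F, hF⟩ := fB_diff.isExactOn_ball
  have hc := fB_diff.continuousOn
  have h3 := seg_int (convex_ball _ _) hF hc (B_sub hw) (B_sub hδ)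
  rw [h3]
  have e : W711.HT.ssF δ = δ * ∫ t in (0:ℝ)..1, fB (δ * t) := by
    unfold W711.HT.ssF fB
    simp only [mul_assoc]
  rw [e]
  -- the defect
  obtain ⟨Δ, hΔ⟩ : ∃ Δ, Δ = δ * (∫ t in (0:ℝ)..1, fB (δ * t)) - w * (∫ t in (0:ℝ)..1, fB (w * t)) -
    (F δ - F w) := ⟨_, rfl⟩
  suffices hz : Δ = 0 by
    rw [hz] at hΔ
    linear_combination -hΔ
  have hgi : ∀ a b : ℝ, IntervalIntegrable (fun t : ℝ => 10 + |Real.log t|) volume a b := fun a b =>
    intervalIntegrable_const.add intervalIntegral.intervalIntegrable_log'.abs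
  -- integral from `η` to `1`
  have hfar : ∀ v ∈ ball (1 / 4 : ℂ) (1 / 20), ∀ η : ℝ, 0 < η → η ≤ 1 →
      v * (∫ t in η..1, fB (v * t)) = F v - F (v * η) := by
    intro v hv η h0 h1
    have hder : ∀ t ∈ Set.uIcc η 1, HasDerivAt (fun t : ℝ => F (v * t)) (v * fB (v * t)) t := by
      intro t ht
      rw [Set.uIcc_of_le h1] at ht
      have g1 : HasDerivAt (fun t : ℝ => v * (t : ℂ)) v t := by
        have g2 : HasDerivAt (fun t : ℝ => (t : ℂ)) 1 t := Complex.ofRealCLM.hasDerivAt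
        simpa using g2.const_mul v
      have g3 := (hF _ (B_star hv (h0.trans_le ht.1) ht.2)).comp t g1
      refine g3.congr_deriv ?_
      ring
    have hcont : ContinuousOn (fun t : ℝ => v * fB (v * t)) (Set.uIcc η 1) := by
      refine continuousOn_const.mul (hc.comp (by fun_prop) ?_)
      intro t ht
      rw [Set.uIcc_of_le h1] at ht
      exact B_star hv (h0.trans_le ht.1) ht.2
    rw [← intervalIntegral.integral_const_mul,
      intervalIntegral.integral_eq_sub_of_hasDerivAt hder hcont.intervalIntegrable]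
    simp
  -- integral from `0` to `η`
  have hnear : ∀ v ∈ ball (1 / 4 : ℂ) (1 / 20), ∀ η : ℝ, 0 < η → η ≤ 1 →
      ‖v * (∫ t in (0:ℝ)..η, fB (v * t))‖ ≤ ∫ t in (0:ℝ)..η, (10 + |Real.log t|) := by
    intro v hv η h0 h1
    have hv1 : ‖v‖ ≤ 1 := by
      rw [mem_ball, dist_eq_norm] at hv
      have := norm_add_le (v - 1 / 4) (1 / 4)
      rw [sub_add_cancel] at this
      have e4 : ‖(1 / 4 : ℂ)‖ = 1 / 4 := by norm_num
      rw [e4] at this
      linarith
    have g1 : ‖∫ t in (0:ℝ)..η, fB (v * t)‖ ≤ ∫ t in (0:ℝ)..η, (10 + |Real.log t|) := by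
      refine intervalIntegral.norm_integral_le_of_norm_le h0.le ?_ (hgi 0 η)
      exact ae_of_all _ fun t ht => fB_bound hv ht.1 (ht.2.trans h1)
    rw [norm_mul]
    calc ‖v‖ * ‖∫ t in (0:ℝ)..η, fB (v * t)‖ ≤ 1 * ‖∫ t in (0:ℝ)..η, fB (v * t)‖ :=
          mul_le_mul_of_nonneg_right hv1 (norm_nonneg _)
      _ ≤ _ := by rw [one_mul]; exact g1
  have hbd : ∀ η : ℝ, 0 < η → η ≤ 1 → ‖Δ‖ ≤ 2 * (∫ t in (0:ℝ)..η, (10 + |Real.log t|)) +
      η * (10 + |Real.log η|) := by
    intro η h0 h1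
    have hs : ∀ v ∈ ball (1 / 4 : ℂ) (1 / 20), v * (∫ t in (0:ℝ)..1, fB (v * t)) =
        v * (∫ t in (0:ℝ)..η, fB (v * t)) + (F v - F (v * η)) := by
      intro v hv
      rw [← hfar v hv η h0 h1, ← mul_add, intervalIntegral.integral_add_adjacent_intervals]
      · refine (fB_int hv).mono_set ?_
        rw [Set.uIcc_of_le h0.le, Set.uIcc_of_le zero_le_one]
        exact Set.Icc_subset_Icc_right h1
      · refine (fB_int hv).mono_set ?_
        rw [Set.uIcc_of_le h1, Set.uIcc_of_le zero_le_one]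
        exact Set.Icc_subset_Icc_left h0.le
    have h4 := seg_int (convex_ball _ _) hF hc (B_star hw h0 h1) (B_star hδ h0 h1)
    have h5 : ‖F (δ * η) - F (w * η)‖ ≤ η * (10 + |Real.log η|) := by
      rw [← h4, norm_mul]
      have g1 : ‖δ * η - w * η‖ ≤ η := by
        rw [← sub_mul, norm_mul, Complex.norm_real, Real.norm_eq_abs, abs_of_pos h0]
        have : ‖δ - w‖ ≤ 1 := by
          rw [mem_ball] at hδ hw
          have := dist_triangle_right δ w (1 / 4 : ℂ)
          rw [← dist_eq_norm]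
          linarith
        nlinarith
      have g2 : ‖∫ t in (0:ℝ)..1, fB (w * η + (δ * η - w * η) * t)‖ ≤
          (10 + |Real.log η|) * |1 - 0| := by
        refine intervalIntegral.norm_integral_le_of_norm_le_const fun t ht => ?_
        rw [Set.uIoc_of_le zero_le_one] at ht
        have e1 : w * η + (δ * η - w * η) * t = (w + (δ - w) * t) * η := by ring
        rw [e1]
        refine fB_bound ?_ h0 h1
        have := (convex_ball (1 / 4 : ℂ) (1 / 20)) hw hδ (sub_nonneg.2 ht.2) ht.1.le (by ring)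
        rw [Complex.real_smul, Complex.real_smul] at this
        have e : w + (δ - w) * t = ((1 - t : ℝ) : ℂ) * w + (t : ℂ) * δ := by push_cast; ring
        rw [e]; exact this
      rw [sub_zero, abs_one, mul_one] at g2
      exact mul_le_mul g1 g2 (norm_nonneg _) h0.le
    have h6 : Δ = δ * (∫ t in (0:ℝ)..η, fB (δ * t)) - w * (∫ t in (0:ℝ)..η, fB (w * t)) -
        (F (δ * η) - F (w * η)) := by
      rw [hΔ, hs δ hδ, hs w hw]
      ring
    rw [h6]
    have k1 := norm_sub_le (δ * (∫ t in (0:ℝ)..η, fB (δ * t)) - w * (∫ t in (0:ℝ)..η, fB (w * t)))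
      (F (δ * η) - F (w * η))
    have k2 := norm_sub_le (δ * (∫ t in (0:ℝ)..η, fB (δ * t))) (w * (∫ t in (0:ℝ)..η, fB (w * t)))
    have k3 := hnear δ hδ η h0 h1
    have k4 := hnear w hw η h0 h1
    linarith
  -- limit
  have hlim : Tendsto (fun η : ℝ => 2 * (∫ t in (0:ℝ)..η, (10 + |Real.log t|)) +
      (10 * η + |η * Real.log η|)) (𝓝[>] 0) (𝓝 0) := by
    have c1 : Continuous fun η : ℝ => ∫ t in (0:ℝ)..η, (10 + |Real.log t|) :=
      intervalIntegral.continuous_primitive hgi 0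
    have c2 : Continuous fun η : ℝ => 2 * (∫ t in (0:ℝ)..η, (10 + |Real.log t|)) +
        (10 * η + |η * Real.log η|) :=
      (continuous_const.mul c1).add ((continuous_const.mul continuous_id).add
        Real.continuous_mul_log.abs)
    have := c2.tendsto 0
    simp only [intervalIntegral.integral_same, mul_zero, zero_mul, abs_zero, add_zero] at this
    exact this.mono_left nhdsWithin_le_nhds
  have hle : ‖Δ‖ ≤ 0 := by
    refine ge_of_tendsto hlim ?_
    filter_upwards [Ioc_mem_nhdsGT one_pos] with η hη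
    refine (hbd η hη.1 hη.2).trans (le_of_eq ?_)
    rw [abs_mul, abs_of_pos hη.1]
    ring
  exact norm_le_zero_iff.1 hle

end Pool.Agent.W366.HT
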