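import Pool.Agent.W366.HT.Int2

/-!
# Riemann sums
-/

set_option autoImplicit false

namespace Pool.Agent.W366.HT

open Filter Finset Topology Metric MeasureTheory
open scoped Real

/-- midpoint sums of a Lipschitz function -/
lemma riem {h : ℝ → ℂ} {L W : ℝ} (hL : 0 ≤ L) (hc : ContinuousOn h (Set.Icc 0 W))
    (hlip : ∀ x ∈ Set.Icc 0 W, ∀ y ∈ Set.Icc 0 W, ‖h x - h y‖ ≤ L * |x - y|) {N : ℕ} (hN : 0 < N) :
    ∀ m : ℕ, (m : ℝ) / N ≤ W →
      ‖(∑ j ∈ range m, h ((2 * j + 1) / (2 * N))) / N - ∫ s in (0:ℝ)..((m : ℝ) / N), h s‖ ≤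
        L * ((m : ℝ) / N) / N := by
  have hN' : (0 : ℝ) < N := by exact_mod_cast hN
  intro m
  induction m with
  | zero =>
    intro _
    simp
  | succ m ih =>
    intro hm
    have hlt : (m : ℝ) / N ≤ ((m + 1 : ℕ) : ℝ) / N := by
      apply div_le_div_of_nonneg_right _ hN'.le
      push_cast; linarith
    have h0 : (0 : ℝ) ≤ (m : ℝ) / N := by positivity
    have ih' := ih (hlt.trans hm)
    have hi1 : IntervalIntegrable h volume 0 ((m : ℝ) / N) := by
      refine (hc.mono ?_).intervalIntegrable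
      rw [Set.uIcc_of_le h0]
      exact Set.Icc_subset_Icc_right (hlt.trans hm)
    have hi2 : IntervalIntegrable h volume ((m : ℝ) / N) (((m + 1 : ℕ) : ℝ) / N) := by
      refine (hc.mono ?_).intervalIntegrable
      rw [Set.uIcc_of_le hlt]
      exact Set.Icc_subset_Icc h0 hm
    rw [sum_range_succ, ← intervalIntegral.integral_add_adjacent_intervals hi1 hi2]
    have hstep : ‖h ((2 * m + 1) / (2 * N)) / N -
        ∫ s in ((m : ℝ) / N)..(((m + 1 : ℕ) : ℝ) / N), h s‖ ≤ L * (1 / N) * (1 / N) := by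
      have e1 : h ((2 * m + 1) / (2 * N)) / N =
          ∫ _ in ((m : ℝ) / N)..(((m + 1 : ℕ) : ℝ) / N), h ((2 * m + 1) / (2 * N)) := by
        rw [intervalIntegral.integral_const, Complex.real_smul]
        push_cast
        have : (N : ℂ) ≠ 0 := by exact_mod_cast hN.ne'
        field_simp
        ring
      rw [e1, ← intervalIntegral.integral_sub intervalIntegrable_const hi2]
      have e2 : |((m + 1 : ℕ) : ℝ) / N - (m : ℝ) / N| = 1 / N := by
        rw [← sub_div]
        push_cast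
        rw [add_sub_cancel_left, abs_of_pos (by positivity)]
      rw [← e2]
      refine (intervalIntegral.norm_integral_le_of_norm_le_const
        (C := L * (1 / N)) fun s hs => ?_).trans (le_of_eq ?_)
      · rw [Set.uIoc_of_le hlt] at hs
        have hmid1 : (m : ℝ) / N ≤ (2 * m + 1) / (2 * N) := by
          rw [div_le_div_iff₀ hN' (by positivity)]
          nlinarith
        have hmid2 : (2 * (m : ℝ) + 1) / (2 * N) ≤ ((m + 1 : ℕ) : ℝ) / N := by
          rw [div_le_div_iff₀ (by positivity) hN']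
          push_cast
          nlinarith
        refine (hlip _ ⟨h0.trans hmid1, hmid2.trans hm⟩ s ⟨h0.trans hs.1.le, hs.2.trans hm⟩).trans ?_
        apply mul_le_mul_of_nonneg_left _ hL
        have e3 : ((m + 1 : ℕ) : ℝ) / N = (m : ℝ) / N + 1 / N := by
          push_cast; ring
        rw [e3] at hs hmid2
        rw [abs_le]
        constructor <;> linarith [hs.1, hs.2]
      · rw [e2]
    have hfin : ‖(∑ j ∈ range m, h ((2 * j + 1) / (2 * N)) + h ((2 * m + 1) / (2 * N))) / N -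
        ((∫ s in (0:ℝ)..((m : ℝ) / N), h s) +
          ∫ s in ((m : ℝ) / N)..(((m + 1 : ℕ) : ℝ) / N), h s)‖ ≤
        L * ((m : ℝ) / N) / N + L * (1 / N) * (1 / N) := by
      refine le_trans (le_of_eq ?_) ((norm_add_le _ _).trans (add_le_add ih' hstep))
      congr 1
      ring
    refine hfin.trans (le_of_eq ?_)
    push_cast
    ring

/-- sums of a monotone function -/
lemma mono_sum {g : ℝ → ℝ} (hmono : ∀ x y, 0 < x → x ≤ y → y ≤ 1 / 2 → g x ≤ g y)
    (hint : ∀ a b, IntervalIntegrable g volume a b) {N : ℕ} (hN : 0 < N) :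
    ∀ m : ℕ, ((m + 1 : ℕ) : ℝ) / N ≤ 1 / 2 →
      0 ≤ (∑ k ∈ range (m + 1), g ((k + 1) / N)) / N -
        (∫ s in (0:ℝ)..(((m + 1 : ℕ) : ℝ) / N), g s) ∧
      (∑ k ∈ range (m + 1), g ((k + 1) / N)) / N - (∫ s in (0:ℝ)..(((m + 1 : ℕ) : ℝ) / N), g s) ≤
        g (((m + 1 : ℕ) : ℝ) / N) / N - ∫ s in (0:ℝ)..(1 / N), g s := by
  have hN' : (0 : ℝ) < N := by exact_mod_cast hN
  -- one cell, upper bound
  have hup : ∀ m : ℕ, ((m + 1 : ℕ) : ℝ) / N ≤ 1 / 2 →
      (∫ s in ((m : ℝ) / N)..(((m + 1 : ℕ) : ℝ) / N), g s) ≤ g (((m + 1 : ℕ) : ℝ) / N) / N := by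
    intro m hm
    have hlt : (m : ℝ) / N ≤ ((m + 1 : ℕ) : ℝ) / N := by
      apply div_le_div_of_nonneg_right _ hN'.le
      push_cast; linarith
    have h1 := intervalIntegral.integral_mono_on_of_le_Ioo (μ := volume) hlt (hint _ _)
      (intervalIntegrable_const (c := g (((m + 1 : ℕ) : ℝ) / N))) (fun x hx =>
        hmono x _ (lt_of_le_of_lt (by positivity) hx.1) hx.2.le hm)
    refine h1.trans (le_of_eq ?_)
    rw [intervalIntegral.integral_const, smul_eq_mul, ← sub_div]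
    push_cast
    rw [add_sub_cancel_left]
    ring
  intro m
  induction m with
  | zero =>
    intro hm
    have h1 := hup 0 hm
    simp only [Nat.cast_zero, zero_div, zero_add, Nat.cast_one] at h1
    simp only [zero_add, sum_range_one, Nat.cast_zero, Nat.cast_one]
    constructor <;> linarith
  | succ m ih =>
    intro hm
    have hlt : ((m + 1 : ℕ) : ℝ) / N ≤ ((m + 1 + 1 : ℕ) : ℝ) / N := by
      apply div_le_div_of_nonneg_right _ hN'.le
      push_cast; linarith
    obtain ⟨i1, i2⟩ := ih (hlt.trans hm)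
    rw [sum_range_succ, ← intervalIntegral.integral_add_adjacent_intervals
      (hint 0 (((m + 1 : ℕ) : ℝ) / N)) (hint _ _)]
    have h1 := hup (m + 1) hm
    have h2 : g (((m + 1 : ℕ) : ℝ) / N) / N ≤
        ∫ s in (((m + 1 : ℕ) : ℝ) / N)..(((m + 1 + 1 : ℕ) : ℝ) / N), g s := by
      have h3 := intervalIntegral.integral_mono_on_of_le_Ioo (μ := volume) hlt
        (intervalIntegrable_const (c := g (((m + 1 : ℕ) : ℝ) / N))) (hint _ _) (fun x hx =>
          hmono _ x (by positivity) hx.1.le (hx.2.le.trans hm))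
      refine le_trans (le_of_eq ?_) h3
      rw [intervalIntegral.integral_const, smul_eq_mul, ← sub_div]
      push_cast
      ring
    have e : g ((((m + 1 : ℕ) : ℝ) + 1) / N) = g (((m + 1 + 1 : ℕ) : ℝ) / N) := by
      congr 1
      push_cast
      ring
    rw [e, add_div]
    constructor <;> linarith

/-- the sum of the logarithms of the factors of `R_d` -/
lemma sumA {ψ : ℂ} (hψ : ψ ∈ ball (0 : ℂ) (1 / 100)) {N m : ℕ} (hN : 0 < N)
    (hm : (m : ℝ) / N ≤ 1 / 4) :
    ‖(∑ j ∈ range m, fA ψ (((2 * j + 1) / (2 * N) : ℝ) : ℂ)) / N -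
      ((m : ℂ) / N) * ∫ t in (0:ℝ)..1, fA ψ ((m : ℂ) / N * t)‖ ≤ 8 / N := by
  have hN' : (0 : ℝ) < N := by exact_mod_cast hN
  have hD : ∀ x ∈ Set.Icc (0:ℝ) (1 / 4), (x : ℂ) ∈ ball (1 / 8 : ℂ) (3 / 20) := by
    intro x hx
    rw [mem_ball, dist_eq_norm]
    have e : (x : ℂ) - 1 / 8 = ((x - 1 / 8 : ℝ) : ℂ) := by push_cast; ring
    rw [e, Complex.norm_real, Real.norm_eq_abs, abs_lt]
    constructor <;> linarith [hx.1, hx.2]
  have hc : ContinuousOn (fun s : ℝ => fA ψ (s : ℂ)) (Set.Icc 0 (1 / 4)) :=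
    (fA_diff hψ).continuousOn.comp (by fun_prop) hD
  have h1 := riem (h := fun s : ℝ => fA ψ (s : ℂ)) (L := 32) (W := 1 / 4) (by norm_num) hc
    (fun x hx y hy => by
      have := fA_lip hψ (hD y hy) (hD x hx)
      rwa [← Complex.ofReal_sub, Complex.norm_real, Real.norm_eq_abs] at this) hN m hm
  have e1 : ((m : ℂ) / N) * ∫ t in (0:ℝ)..1, fA ψ ((m : ℂ) / N * t) =
      ∫ s in (0:ℝ)..((m : ℝ) / N), fA ψ (s : ℂ) := by
    have h2 := intervalIntegral.smul_integral_comp_mul_left (a := 0) (b := 1)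
      (f := fun s : ℝ => fA ψ (s : ℂ)) ((m : ℝ) / N)
    rw [mul_zero, mul_one, Complex.real_smul] at h2
    rw [← h2]
    push_cast
    rfl
  rw [e1]
  refine h1.trans ?_
  rw [div_le_div_iff_of_pos_right hN']
  linarith

/-- the real logarithm -/
noncomputable def gB (s : ℝ) : ℝ := Real.log (2 * Real.sin (π * s))

lemma gB_int (a b : ℝ) : IntervalIntegrable gB volume a b := by
  have h : MeromorphicOn (fun s : ℝ => 2 * Real.sin (π * s)) (Set.uIcc a b) := by
    intro x _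
    apply AnalyticAt.meromorphicAt
    fun_prop
  have h1 := h.intervalIntegrable_log_norm
  have e : (fun s : ℝ => Real.log ‖2 * Real.sin (π * s)‖) = gB := by
    funext s
    rw [Real.norm_eq_abs, Real.log_abs]
    rfl
  rwa [e] at h1

lemma gB_mono {x y : ℝ} (hx : 0 < x) (hxy : x ≤ y) (hy : y ≤ 1 / 2) : gB x ≤ gB y := by
  have hpi := Real.pi_pos
  have h1 : 0 < Real.sin (π * x) := Real.sin_pos_of_pos_of_lt_pi (by positivity) (by nlinarith)
  have h2 : Real.sin (π * x) ≤ Real.sin (π * y) :=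
    Real.sin_le_sin_of_le_of_le_pi_div_two (by nlinarith) (by nlinarith) (by nlinarith)
  unfold gB
  exact Real.log_le_log (by positivity) (by linarith)

lemma fB_real {s : ℝ} (h0 : 0 ≤ s) (h1 : s ≤ 1) : fB (s : ℂ) = ((gB s : ℝ) : ℂ) := by
  have h2 : 0 ≤ Real.sin (π * s) :=
    Real.sin_nonneg_of_nonneg_of_le_pi (by positivity) (by nlinarith [Real.pi_pos])
  unfold fB gB
  rw [Complex.ofReal_log (by positivity)]
  push_cast
  rfl

/-- the sum of the logarithms of the factors of `S_d` -/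
lemma sumB {ε : ℝ} (hε : 0 < ε) : ∀ᶠ N : ℕ in atTop, ∀ m : ℕ, 0 < m → (m : ℝ) / N ≤ 1 / 2 →
    ‖(∑ k ∈ range m, ((gB ((k + 1) / N) : ℝ) : ℂ)) / N -
      ((m : ℂ) / N) * ∫ t in (0:ℝ)..1, fB ((m : ℂ) / N * t)‖ ≤ ε := by
  have hprim : Tendsto (fun N : ℕ => ∫ s in (0:ℝ)..(1 / N), gB s) atTop (𝓝 0) := by
    have c1 : Continuous fun η : ℝ => ∫ t in (0:ℝ)..η, gB t :=
      intervalIntegral.continuous_primitive gB_int 0
    have c2 := c1.tendsto 0
    rw [intervalIntegral.integral_same] at c2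
    exact c2.comp tendsto_one_div_atTop_nhds_zero_nat
  have hlim : Tendsto (fun N : ℕ => 1 / (N : ℝ) - ∫ s in (0:ℝ)..(1 / N), gB s) atTop (𝓝 0) := by
    have := (tendsto_one_div_atTop_nhds_zero_nat (𝕜 := ℝ)).sub hprim
    simpa using this
  filter_upwards [hlim.eventually_lt_const hε, eventually_gt_atTop 0] with N hN1 hN
  intro m hm hm2
  have hN' : (0 : ℝ) < N := by exact_mod_cast hN
  obtain ⟨m, rfl⟩ : ∃ k, m = k + 1 := ⟨m - 1, by omega⟩
  obtain ⟨h1, h2⟩ := mono_sum (fun x y => gB_mono) gB_int hN m hm2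
  have e1 : (((m + 1 : ℕ) : ℂ) / N) * ∫ t in (0:ℝ)..1, fB (((m + 1 : ℕ) : ℂ) / N * t) =
      ((∫ s in (0:ℝ)..(((m + 1 : ℕ) : ℝ) / N), gB s : ℝ) : ℂ) := by
    have h3 := intervalIntegral.smul_integral_comp_mul_left (a := 0) (b := 1)
      (f := fun s : ℝ => fB (s : ℂ)) (((m + 1 : ℕ) : ℝ) / N)
    rw [mul_zero, mul_one, Complex.real_smul] at h3
    have h4 : ∫ s in (0:ℝ)..(((m + 1 : ℕ) : ℝ) / N), fB (s : ℂ) =
        ∫ s in (0:ℝ)..(((m + 1 : ℕ) : ℝ) / N), ((gB s : ℝ) : ℂ) := by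
      refine intervalIntegral.integral_congr fun s hs => ?_
      rw [Set.uIcc_of_le (by positivity)] at hs
      exact fB_real hs.1 (by linarith [hs.2])
    rw [← intervalIntegral.integral_ofReal, ← h4, ← h3]
    push_cast
    rfl
  have e2 : (∑ k ∈ range (m + 1), ((gB ((k + 1) / N) : ℝ) : ℂ)) / N =
      (((∑ k ∈ range (m + 1), gB ((k + 1) / N)) / N : ℝ) : ℂ) := by
    push_cast
    rfl
  rw [e1, e2, ← Complex.ofReal_sub, Complex.norm_real, Real.norm_eq_abs, abs_of_nonneg h1]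
  refine h2.trans (le_trans ?_ hN1.le)
  have h5 : gB (((m + 1 : ℕ) : ℝ) / N) ≤ 1 := by
    unfold gB
    have g0 : 0 < Real.sin (π * (((m + 1 : ℕ) : ℝ) / N)) := by
      apply Real.sin_pos_of_pos_of_lt_pi (by positivity)
      nlinarith [Real.pi_pos]
    have g1 := Real.sin_le_one (π * (((m + 1 : ℕ) : ℝ) / N))
    have g2 := Real.log_le_sub_one_of_pos (by positivity : 0 < 2 * Real.sin (π * (((m + 1 : ℕ) : ℝ) / N)))
    linarith
  have h6 : gB (((m + 1 : ℕ) : ℝ) / N) / N ≤ 1 / N := div_le_div_of_nonneg_right h5 hN'.le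
  linarith

end Pool.Agent.W366.HT
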